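import Mathlib
import Pool.Agent.Helper47.M.Defs

/-!
# Theorem M, block A: existence of tensors
-/

set_option autoImplicit false

namespace Pool.Agent.Helper94.M

open Pool.Agent.Helper47.M

variable {k : ℕ} {N : Fin k → ℕ} {e : Fin k → ℕ}

/-- The tensor product of linear forms. -/
def pten {K : Type*} [CommRing K] (L : ∀ r, Fin (e r) → Fin (N r + 1) → K) : Tn N e → K :=
  fun m => ∏ r, ∏ t, L r t (m r t)

theorem tv_pten {K : Type*} [CommRing K] (L : ∀ r, Fin (e r) → Fin (N r + 1) → K)
    (X : ∀ r, Fin (e r) → Fin (N r + 1) → K) :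
    tv (pten L) X = ∏ r, ∏ t, ∑ i, L r t i * X r t i := by
  classical
  have h1 : ∀ r, ∏ t, ∑ i, L r t i * X r t i =
      ∑ m : Fin (e r) → Fin (N r + 1), ∏ t, (L r t (m t) * X r t (m t)) := by
    intro r
    rw [Finset.prod_univ_sum]
    simp
  rw [Finset.prod_congr rfl fun r _ => h1 r, Finset.prod_univ_sum]
  simp only [tv, pten, Fintype.piFinset_univ]
  refine Finset.sum_congr rfl fun m _ => ?_
  rw [← Finset.prod_mul_distrib]
  refine Finset.prod_congr rfl fun r _ => ?_
  rw [← Finset.prod_mul_distrib]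

theorem tv_add {K : Type*} [CommRing K] (a a' : Tn N e → K)
    (X : ∀ r, Fin (e r) → Fin (N r + 1) → K) :
    tv (fun m => a m + a' m) X = tv a X + tv a' X := by
  simp only [tv, add_mul, Finset.sum_add_distrib]

theorem fv_add {K : Type*} [CommRing K] (a a' : Tn N e → K) (x : Pt N K) :
    fv (fun m => a m + a' m) x = fv a x + fv a' x := tv_add _ _ _

theorem dv_add' {K : Type*} [CommRing K] (a a' : Tn N e → K) (x : Pt N K) (j : Fin k)
    (b : Fin (N j + 1) → K) :
    dv (fun m => a m + a' m) x j b = dv a x j b + dv a' x j b := by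
  simp only [dv, tv_add, Finset.sum_add_distrib]

section

variable {K : Type*} [Field K]

theorem exists_norm (x : Pt N K) (hx : ∀ r, x r ≠ 0) :
    ∃ L : ∀ r, Fin (N r + 1) → K, ∀ r, ∑ i, L r i * x r i = 1 := by
  classical
  have h : ∀ r, ∃ L : Fin (N r + 1) → K, ∑ i, L i * x r i = 1 := by
    intro r
    obtain ⟨i, hi⟩ := Function.ne_iff.mp (hx r)
    refine ⟨Pi.single i (x r i)⁻¹, ?_⟩
    rw [Finset.sum_eq_single i]
    · rw [Pi.single_eq_same, inv_mul_cancel₀ hi]
    · intro b _ hb
      rw [Pi.single_eq_of_ne hb, zero_mul]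
    · intro h
      exact absurd (Finset.mem_univ _) h
  choose L hL using h
  exact ⟨L, hL⟩

/-- The tensor with the forms `M t` in the factor `j`, and normalized forms in the others. -/
theorem exists_prod (x : Pt N K) (hx : ∀ r, x r ≠ 0) (j : Fin k)
    (M : Fin (e j) → Fin (N j + 1) → K) :
    ∃ a : Tn N e → K, (∀ y, fv a (Function.update x j y) = ∏ t, ∑ i, M t i * y i) ∧
      ∀ b, dv a x j b = ∑ t, ∏ t', ∑ i, M t' i * (Function.update (fun _ => x j) t b : Fin (e j) → Fin (N j + 1) → K) t' i := by
  classical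
  obtain ⟨L, hL⟩ := exists_norm x hx
  refine ⟨pten (Function.update (fun r _ => L r) j M), ?_, ?_⟩
  · intro y
    rw [fv, tv_pten, Finset.prod_eq_single j]
    · simp only [Function.update_self]
    · intro r _ hr
      refine Finset.prod_eq_one fun t _ => ?_
      rw [Function.update_of_ne hr, Function.update_of_ne hr]
      exact hL r
    · intro h
      exact absurd (Finset.mem_univ _) h
  · intro b
    rw [dv]
    refine Finset.sum_congr rfl fun t _ => ?_
    rw [tv_pten, Finset.prod_eq_single j]
    · simp only [Function.update_self, slot]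
    · intro r _ hr
      refine Finset.prod_eq_one fun t _ => ?_
      rw [Function.update_of_ne hr, slot, Function.update_of_ne hr]
      exact hL r
    · intro h
      exact absurd (Finset.mem_univ _) h

/-- A tensor with a given value and given derivatives at `x` in the factor `j`. -/
theorem exists_tensor (he : ∀ r, 0 < e r) (x : Pt N K) (hx : ∀ r, x r ≠ 0)
    (j : Fin k) (e0 : Fin (N j + 1)) (h0 : x j e0 ≠ 0) (α : K) (γ : Fin (N j + 1) → K) :
    ∃ a : Tn N e → K, fv a x = α ∧ ∀ b, b e0 = 0 → dv a x j b = ∑ i, γ i * b i := by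
  classical
  set t0 : Fin (e j) := ⟨0, he j⟩ with ht0
  set lam : Fin (N j + 1) → K := Pi.single e0 (x j e0)⁻¹ with hlam
  have hlamy : ∀ y : Fin (N j + 1) → K, ∑ i, lam i * y i = (x j e0)⁻¹ * y e0 := by
    intro y
    rw [Finset.sum_eq_single e0]
    · rw [hlam, Pi.single_eq_same]
    · intro b _ hb
      rw [hlam, Pi.single_eq_of_ne hb, zero_mul]
    · intro h
      exact absurd (Finset.mem_univ _) h
  set μ : Fin (N j + 1) → K := fun i => γ i + (α - ∑ i, γ i * x j i) * lam i with hμ
  have hμy : ∀ y : Fin (N j + 1) → K, ∑ i, μ i * y i =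
      ∑ i, γ i * y i + (α - ∑ i, γ i * x j i) * ((x j e0)⁻¹ * y e0) := by
    intro y
    rw [← hlamy y, Finset.mul_sum, ← Finset.sum_add_distrib]
    refine Finset.sum_congr rfl fun i _ => ?_
    rw [hμ]
    ring
  obtain ⟨a, ha1, ha2⟩ := exists_prod (e := e) x hx j (Function.update (fun _ => lam) t0 μ)
  refine ⟨a, ?_, ?_⟩
  · have h := ha1 (x j)
    rw [Function.update_eq_self] at h
    rw [h, Finset.prod_eq_single t0]
    · rw [Function.update_self, hμy, inv_mul_cancel₀ h0]
      ring
    · intro t _ ht
      rw [Function.update_of_ne ht, hlamy, inv_mul_cancel₀ h0]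
    · intro h
      exact absurd (Finset.mem_univ _) h
  · intro b hb
    rw [ha2 b, Finset.sum_eq_single t0]
    · rw [Finset.prod_eq_single t0]
      · rw [Function.update_self, Function.update_self, hμy, hb, mul_zero, mul_zero, add_zero]
      · intro t _ ht
        rw [Function.update_of_ne ht, Function.update_of_ne ht, hlamy, inv_mul_cancel₀ h0]
      · intro h
        exact absurd (Finset.mem_univ _) h
    · intro t _ ht
      refine Finset.prod_eq_zero (Finset.mem_univ t) ?_
      rw [Function.update_of_ne ht, Function.update_self, hlamy, hb, mul_zero]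
    · intro h
      exact absurd (Finset.mem_univ _) h

/-- Dual forms. -/
theorem exists_dual {n : ℕ} (x b : Fin n → K)
    (hb : ∀ u w : K, (∀ i, u * x i + w * b i = 0) → u = 0 ∧ w = 0) :
    ∃ lam μ : Fin n → K, ∑ i, lam i * x i = 1 ∧ ∑ i, lam i * b i = 0 ∧
      ∑ i, μ i * x i = 0 ∧ ∑ i, μ i * b i = 1 := by
  classical
  have hx : ∃ i, x i ≠ 0 := by
    by_contra hcon
    push Not at hcon
    exact one_ne_zero (hb 1 0 fun i => by rw [hcon i]; ring).1
  obtain ⟨i, hi⟩ := hx
  have hj : ∃ j, x i * b j - x j * b i ≠ 0 := by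
    by_contra hcon
    push Not at hcon
    have := (hb (b i) (-x i) fun j => by linear_combination -hcon j).2
    exact hi (neg_eq_zero.mp this)
  obtain ⟨j, hj⟩ := hj
  set D := x i * b j - x j * b i with hD
  have key : ∀ (u w : K) (y : Fin n → K),
      ∑ t, ((Pi.single i u : Fin n → K) t + (Pi.single j w : Fin n → K) t) * y t =
        u * y i + w * y j := by
    intro u w y
    simp only [add_mul, Finset.sum_add_distrib]
    congr 1
    · rw [Finset.sum_eq_single i]
      · rw [Pi.single_eq_same]
      · intro t _ ht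
        rw [Pi.single_eq_of_ne ht, zero_mul]
      · intro h
        exact absurd (Finset.mem_univ _) h
    · rw [Finset.sum_eq_single j]
      · rw [Pi.single_eq_same]
      · intro t _ ht
        rw [Pi.single_eq_of_ne ht, zero_mul]
      · intro h
        exact absurd (Finset.mem_univ _) h
  refine ⟨fun t => (Pi.single i (b j / D) : Fin n → K) t + (Pi.single j (-(b i) / D) : Fin n → K) t,
    fun t => (Pi.single i (-(x j) / D) : Fin n → K) t + (Pi.single j (x i / D) : Fin n → K) t,
    ?_, ?_, ?_, ?_⟩
  · rw [key]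
    field_simp
    rw [hD]
    ring
  · rw [key]
    field_simp
    ring
  · rw [key]
    field_simp
    ring
  · rw [key]
    field_simp
    rw [hD]
    ring

theorem exists_tensor1 (he : ∀ r, 0 < e r) (x : Pt N K) (hx : ∀ r, x r ≠ 0)
    (j : Fin k) (b : Fin (N j + 1) → K)
    (hb : ∀ u w : K, (∀ i, u * x j i + w * b i = 0) → u = 0 ∧ w = 0) (α β : K) :
    ∃ a : Tn N e → K, fv a x = α ∧ dv a x j b = β := by
  classical
  set t0 : Fin (e j) := ⟨0, he j⟩ with ht0
  obtain ⟨lam, μ, hlx, hlb, hmx, hmb⟩ := exists_dual (x j) b hb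
  set ν : Fin (N j + 1) → K := fun i => α * lam i + β * μ i with hν
  have hνy : ∀ y : Fin (N j + 1) → K, ∑ i, ν i * y i =
      α * (∑ i, lam i * y i) + β * ∑ i, μ i * y i := by
    intro y
    rw [Finset.mul_sum, Finset.mul_sum, ← Finset.sum_add_distrib]
    refine Finset.sum_congr rfl fun i _ => ?_
    rw [hν]
    ring
  obtain ⟨a, ha1, ha2⟩ := exists_prod (e := e) x hx j (Function.update (fun _ => lam) t0 ν)
  refine ⟨a, ?_, ?_⟩
  · have h := ha1 (x j)
    rw [Function.update_eq_self] at h
    rw [h, Finset.prod_eq_single t0]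
    · rw [Function.update_self, hνy, hlx, hmx]
      ring
    · intro t _ ht
      rw [Function.update_of_ne ht, hlx]
    · intro h
      exact absurd (Finset.mem_univ _) h
  · rw [ha2 b, Finset.sum_eq_single t0]
    · rw [Finset.prod_eq_single t0]
      · rw [Function.update_self, Function.update_self, hνy, hlb, hmb]
        ring
      · intro t _ ht
        rw [Function.update_of_ne ht, Function.update_of_ne ht, hlx]
      · intro h
        exact absurd (Finset.mem_univ _) h
    · intro t _ ht
      refine Finset.prod_eq_zero (Finset.mem_univ t) ?_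
      rw [Function.update_of_ne ht, Function.update_self, hlb]
    · intro h
      exact absurd (Finset.mem_univ _) h

theorem exists_tensor2 (he : ∀ r, 0 < e r) (x : Pt N K) (hx : ∀ r, x r ≠ 0)
    (j : Fin k) (hj : e j = 2) (b : Fin (N j + 1) → K)
    (hb : ∀ u w : K, (∀ i, u * x j i + w * b i = 0) → u = 0 ∧ w = 0) (α β γ : K) :
    ∃ a : Tn N e → K, fv a x = α ∧ dv a x j b = β ∧ fv a (Function.update x j b) = γ := by
  classical
  have _ := he
  obtain ⟨lam, μ, hlx, hlb, hmx, hmb⟩ := exists_dual (x j) b hb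
  have p2 : ∀ F : Fin (e j) → K, ∏ t, F t = F (Fin.cast hj.symm 0) * F (Fin.cast hj.symm 1) := by
    intro F
    rw [← Equiv.prod_comp (finCongr hj.symm), Fin.prod_univ_two]
    rfl
  have s2 : ∀ F : Fin (e j) → K, ∑ t, F t = F (Fin.cast hj.symm 0) + F (Fin.cast hj.symm 1) := by
    intro F
    rw [← Equiv.sum_comp (finCongr hj.symm), Fin.sum_univ_two]
    rfl
  have h10 : (Fin.cast hj.symm 1 : Fin (e j)) ≠ Fin.cast hj.symm 0 := by
    intro h
    have := congrArg Fin.val h
    simp at this
  -- first tensor: (α λ + β μ) at the place 0, λ at the place 1; second: γ μ, μ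
  obtain ⟨a, ha1, ha2⟩ := exists_prod (e := e) x hx j
    (Function.update (fun _ => lam) (Fin.cast hj.symm 0) fun i => α * lam i + β * μ i)
  obtain ⟨a', ha1', ha2'⟩ := exists_prod (e := e) x hx j
    (Function.update (fun _ => μ) (Fin.cast hj.symm 0) fun i => γ * μ i)
  have hνy : ∀ y : Fin (N j + 1) → K, ∑ i, (α * lam i + β * μ i) * y i =
      α * (∑ i, lam i * y i) + β * ∑ i, μ i * y i := by
    intro y
    rw [Finset.mul_sum, Finset.mul_sum, ← Finset.sum_add_distrib]
    refine Finset.sum_congr rfl fun i _ => ?_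
    ring
  have hγy : ∀ y : Fin (N j + 1) → K, ∑ i, (γ * μ i) * y i = γ * ∑ i, μ i * y i := by
    intro y
    rw [Finset.mul_sum]
    refine Finset.sum_congr rfl fun i _ => ?_
    ring
  refine ⟨fun m => a m + a' m, ?_, ?_, ?_⟩
  · have h := ha1 (x j)
    have h' := ha1' (x j)
    rw [Function.update_eq_self] at h h'
    rw [fv_add, h, h', p2, p2]
    simp only [Function.update_self, Function.update_of_ne h10, hνy, hγy, hlx, hmx]
    ring
  · rw [dv_add', ha2, ha2', s2, s2, p2, p2, p2, p2]
    simp only [Function.update_self, Function.update_of_ne h10, Function.update_of_ne h10.symm,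
      hνy, hγy, hlx, hmx, hlb, hmb]
    ring
  · rw [fv_add, ha1 b, ha1' b, p2, p2]
    simp only [Function.update_self, Function.update_of_ne h10, hνy, hγy, hlb, hmb]
    ring

end

end Pool.Agent.Helper94.M
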