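import Mathlib
import Pool.Agent.Helper47.M.Defs

/-!
# Theorem M, block A: homogeneity and the chain rule
-/

set_option autoImplicit false

namespace Pool.Agent.Helper94.M

open MvPolynomial Pool.Agent.Helper47.M

variable {k : ℕ} {N : Fin k → ℕ} {e : Fin k → ℕ} {S : Type*} [CommRing S]

theorem tv_hom {σ : Type*} (a : Tn N e → MvPolynomial σ S) (ha : ∀ m, (a m).IsHomogeneous 0)
    (X : ∀ r, Fin (e r) → Fin (N r + 1) → MvPolynomial σ S) (δ : Fin k → ℕ)
    (hX : ∀ r t i, (X r t i).IsHomogeneous (δ r)) :
    (tv a X).IsHomogeneous (∑ r, e r * δ r) := by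
  refine IsHomogeneous.sum _ _ _ fun m _ => ?_
  have h1 : (∏ r, ∏ t, X r t (m r t)).IsHomogeneous (∑ r, e r * δ r) := by
    refine IsHomogeneous.prod _ _ _ fun r _ => ?_
    have h2 : (∏ t, X r t (m r t)).IsHomogeneous (∑ _t : Fin (e r), δ r) :=
      IsHomogeneous.prod _ _ _ fun t _ => hX r t _
    simpa using h2
  simpa using (ha m).mul h1

theorem sum_single (r : Fin k) : ∑ r', e r' * (if r' = r then 1 else 0) = e r := by
  classical
  simp

/-- Homogeneity in the coordinates of the factor `r`. -/
theorem fv_hom {σ : Type*} (a : Tn N e → MvPolynomial σ S) (ha : ∀ m, (a m).IsHomogeneous 0)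
    (x : Pt N (MvPolynomial σ S)) (r : Fin k) (hr : ∀ i, (x r i).IsHomogeneous 1)
    (hx : ∀ j, j ≠ r → ∀ i, (x j i).IsHomogeneous 0) : (fv a x).IsHomogeneous (e r) := by
  classical
  have h := tv_hom a ha (fun r _ => x r) (fun r' => if r' = r then 1 else 0) ?_
  · rw [sum_single] at h
    exact h
  · intro r' _ i
    by_cases h : r' = r
    · subst h
      rw [if_pos rfl]
      exact hr i
    · rw [if_neg h]
      exact hx r' h i

theorem dv_hom {σ : Type*} (a : Tn N e → MvPolynomial σ S) (ha : ∀ m, (a m).IsHomogeneous 0)
    (x : Pt N (MvPolynomial σ S)) (r : Fin k) (hr : ∀ i, (x r i).IsHomogeneous 1)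
    (hx : ∀ j, j ≠ r → ∀ i, (x j i).IsHomogeneous 0) (j : Fin k) (hj : j ≠ r)
    (b : Fin (N j + 1) → MvPolynomial σ S) (hb : ∀ i, (b i).IsHomogeneous 0) :
    (dv a x j b).IsHomogeneous (e r) := by
  classical
  refine IsHomogeneous.sum _ _ _ fun t _ => ?_
  have h := tv_hom a ha (slot e x j t b) (fun r' => if r' = r then 1 else 0) ?_
  · rw [sum_single] at h
    exact h
  · intro r' t' i
    by_cases hj' : r' = j
    · subst hj'
      rw [if_neg hj, slot, Function.update_self]
      by_cases ht : t' = t
      · subst ht
        rw [Function.update_self]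
        exact hb i
      · rw [Function.update_of_ne ht]
        exact hx r' hj i
    · rw [slot, Function.update_of_ne hj']
      by_cases h : r' = r
      · subst h
        rw [if_pos rfl]
        exact hr i
      · rw [if_neg h]
        exact hx r' h i

theorem der_prod {R : Type*} [CommRing R] [Algebra R S] (D : Derivation R S S) {ι : Type*}
    [DecidableEq ι] (s : Finset ι) (f : ι → S) :
    D (∏ i ∈ s, f i) = ∑ i ∈ s, ∏ j ∈ s, Function.update f i (D (f i)) j := by
  induction s using Finset.induction_on with
  | empty => simp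
  | insert a s ha ih =>
    rw [Finset.prod_insert ha, Derivation.leibniz, ih, Finset.sum_insert ha, Finset.prod_insert ha,
      Function.update_self, smul_eq_mul, smul_eq_mul, Finset.mul_sum, add_comm]
    congr 1
    · rw [mul_comm]
      congr 1
      refine Finset.prod_congr rfl fun j hj => ?_
      rw [Function.update_of_ne]
      rintro rfl
      exact ha hj
    · refine Finset.sum_congr rfl fun i hi => ?_
      rw [Finset.prod_insert ha, Function.update_of_ne]
      rintro rfl
      exact ha hi

/-- The chain rule for a derivation which kills the coefficients. -/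
theorem fv_der {R : Type*} [CommRing R] [Algebra R S] (D : Derivation R S S) (a : Tn N e → S)
    (ha : ∀ m, D (a m) = 0) (x : Pt N S) :
    D (fv a x) = ∑ j, dv a x j fun i => D (x j i) := by
  classical
  have h1 : ∀ m : Tn N e, D (∏ r, ∏ t, x r (m r t)) = ∑ j, ∑ t : Fin (e j),
      ∏ r, ∏ t', slot e x j t (fun i => D (x j i)) r t' (m r t') := by
    intro m
    rw [der_prod]
    refine Finset.sum_congr rfl fun j _ => ?_
    rw [der_prod, ← Finset.mul_prod_erase _ _ (Finset.mem_univ j), Function.update_self,
      Finset.sum_mul]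
    refine Finset.sum_congr rfl fun t _ => ?_
    rw [← Finset.mul_prod_erase _ _ (Finset.mem_univ j)]
    congr 1
    · refine Finset.prod_congr rfl fun t' _ => ?_
      rw [slot, Function.update_self]
      by_cases ht : t' = t
      · subst ht
        rw [Function.update_self, Function.update_self]
      · rw [Function.update_of_ne ht, Function.update_of_ne ht]
    · refine Finset.prod_congr rfl fun r hr => ?_
      rw [Function.update_of_ne (Finset.ne_of_mem_erase hr)]
      refine Finset.prod_congr rfl fun t' _ => ?_
      rw [slot, Function.update_of_ne (Finset.ne_of_mem_erase hr)]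
  have h2 : D (fv a x) = ∑ m : Tn N e, a m * D (∏ r, ∏ t, x r (m r t)) := by
    rw [fv, tv, map_sum]
    refine Finset.sum_congr rfl fun m _ => ?_
    rw [Derivation.leibniz, ha m, smul_zero, add_zero, smul_eq_mul]
  rw [h2]
  simp only [h1, dv, tv, Finset.mul_sum]
  rw [Finset.sum_comm]
  refine Finset.sum_congr rfl fun j _ => ?_
  rw [Finset.sum_comm]

end Pool.Agent.Helper94.M
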